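import Mathlib
import Pool.Agent.Helper38.Dml.UniformMain

/-!
# Dynamical Mordell-Lang for most endomorphisms of large degree, all points of bounded degree
-/

set_option autoImplicit false

namespace Pool.Agent.Results.MP_b15c9e_ag.AlmostAllDegree

open MvPolynomial

/-- The tuples of `m` forms of degree `d` in `m` variables with integral coefficients of absolute
value at most `H`. -/
def Box (m d H : ℕ) : Set (Fin m → MvPolynomial (Fin m) ℤ) :=
  {F | ∀ i, (F i).IsHomogeneous d ∧ ∀ e, |(F i).coeff e| ≤ (H : ℤ)}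

/-- The coordinates of `a` lie in a field of degree at most `B` over a purely transcendental
extension (inside `ℂ`, of arbitrary transcendence degree) of `K`. -/
def BddDeg (K : IntermediateField ℚ ℂ) (B : ℕ) {m : ℕ} (a : Fin m → ℂ) : Prop :=
  ∃ (r : ℕ) (t : Fin r → ℂ), AlgebraicIndependent K t ∧
    ∃ L : IntermediateField (IntermediateField.adjoin K (Set.range t)) ℂ,
      FiniteDimensional (IntermediateField.adjoin K (Set.range t)) L ∧
      Module.finrank (IntermediateField.adjoin K (Set.range t)) L ≤ B ∧ ∀ i, a i ∈ L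

/-- For every set of complex forms the set of those `n` for which all of them vanish at the
`n`-th iterate of `a` under `F` is a finite union of arithmetic progressions. -/
def DML {m : ℕ} (F : Fin m → MvPolynomial (Fin m) ℤ) (a : Fin m → ℂ) : Prop :=
  ∀ S : Set (MvPolynomial (Fin m) ℂ), (∀ g ∈ S, ∃ e : ℕ, g.IsHomogeneous e) →
    ∃ T : Finset (ℕ × ℕ),
      {n : ℕ | ∀ g ∈ S, eval ((fun (x : Fin m → ℂ) (i : Fin m) =>
          eval x (MvPolynomial.map (Int.castRingHom ℂ) (F i)))^[n] a) g = 0}
        = {n : ℕ | ∃ q ∈ T, ∃ k : ℕ, n = q.1 * k + q.2}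

/-- Let `K` be a finitely generated subfield of `ℂ`. Consider the tuples `F` of `N + 1` forms of
degree `d` in `N + 1` variables with integral coefficients of absolute value at most `H` which have
no nontrivial common complex zero, so that they define an endomorphism of complex projective
`N`-space, and which have the dynamical Mordell-Lang property for all closed subvarieties (over
`ℂ`) and all points of degree at most `B` over purely transcendental extensions of `K`. Their
proportion is bounded below by a positive constant depending only on `N`, `B`, `K` for all large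
`d` and all `H` large in terms of `d`, and if `N = 2`, or if `N = 3` and `B = 1`, it is even at
least any given number less than `1`. -/
theorem result (K : IntermediateField ℚ ℂ) (hK : K.FG) (N B : ℕ) :
    ∃ κ₀ : ℝ, 0 < κ₀ ∧ ∀ κ : ℝ, κ < 1 → (κ ≤ κ₀ ∨ N = 2 ∨ (N = 3 ∧ B = 1)) →
      ∃ D : ℕ, ∀ d : ℕ, D ≤ d → ∃ H₀ : ℕ, ∀ H : ℕ, H₀ ≤ H →
        (Box (N + 1) d H).Finite ∧
        κ * ((Box (N + 1) d H).ncard : ℝ)
          ≤ ({F ∈ Box (N + 1) d H |
              (∀ x : Fin (N + 1) → ℂ,
                (∀ i, eval x (MvPolynomial.map (Int.castRingHom ℂ) (F i)) = 0) → x = 0) ∧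
              ∀ a : Fin (N + 1) → ℂ, BddDeg K B a → a ≠ 0 → DML F a}.ncard : ℝ) := by
  obtain ⟨κ₀, hκ₀, h⟩ := Pool.Agent.Helper38.Dml.uniform_main K hK N B
  refine ⟨κ₀, hκ₀, fun κ hκ hcase => ?_⟩
  obtain ⟨D, hD⟩ := h κ hκ hcase
  refine ⟨D, fun d hd => ?_⟩
  obtain ⟨H₀, hH₀⟩ := hD d hd
  exact ⟨H₀, fun H hH => ⟨Pool.Agent.Helper38.Dml.BoxG_finite (N + 1) d H, hH₀ H hH⟩⟩

end Pool.Agent.Results.MP_b15c9e_ag.AlmostAllDegree
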